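import Pool.Agent.Q151.LQ.VARQ
import Pool.Agent.Q145.PQ.Stm

/-!
# Project PQ, job TAILP: the medium primes
-/

set_option autoImplicit false

namespace Pool.Agent.Q31.PQ

open Finset Filter
open Pool.Agent.Q145.SZ Pool.Agent.Q145.PQ
open Pool.Agent.Q145.LQ (vq ev Sys SbQ)
open Pool.Agent.Q151.LQ (nuQ_le_mul not_dvd_lead)

theorem nuP_le {K : ℕ} (q : Fin K → Polynomial ℤ) (s : Fin K → ℕ) (p : ℕ) : nuP q s p ≤ p := by
  unfold nuP
  exact (Finset.card_filter_le _ _).trans (by simp)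

theorem nuP_le_mul {K d : ℕ} (q : Fin K → Polynomial ℤ) (s : Fin K → ℕ) {p : ℕ} (hp : p.Prime)
    (hq : ∀ i, 1 ≤ (q i).natDegree ∧ (q i).natDegree ≤ d ∧ ¬ (p : ℤ) ∣ (q i).leadingCoeff) :
    nuP q s p ≤ d * K + 1 := by
  classical
  have h1 := nuQ_le_mul (d := d) q s hp hq
  unfold Pool.Agent.Q145.LQ.nuQ at h1
  unfold nuP
  rw [filter_or]
  refine (card_union_le _ _).trans ?_
  have h2 : ((range p).filter fun n : ℕ => n = 0).card ≤ 1 := by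
    rw [card_le_one]
    intro a ha b hb
    rw [mem_filter] at ha hb
    rw [ha.2, hb.2]
  omega

theorem locP_bds {d K : ℕ} (q : Fin K → Polynomial ℤ) (s : Fin K → ℕ) {p : ℕ} (hp : p.Prime)
    (hd : 1 ≤ d)
    (hq : ∀ i, 1 ≤ (q i).natDegree ∧ (q i).natDegree ≤ d ∧ ¬ (p : ℤ) ∣ (q i).leadingCoeff)
    (hK : 8 * d * (K + 1) ≤ p) :
    7 / 8 ≤ locP q s p ∧ locP q s p ≤ 8 / 7 := by
  have hp0 : (0 : ℝ) < p := by exact_mod_cast hp.pos
  have hp2 : (2 : ℝ) ≤ p := by exact_mod_cast hp.two_le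
  have hd1' : (1 : ℝ) ≤ d := by exact_mod_cast hd
  have hKr' : 8 * (d : ℝ) * ((K : ℝ) + 1) ≤ p := by exact_mod_cast hK
  have hK0' : (0 : ℝ) ≤ K := Nat.cast_nonneg _
  have hKr : 8 * ((K : ℝ) + 1) ≤ p := by nlinarith
  have hν : (nuP q s p : ℝ) ≤ d * K + 1 := by exact_mod_cast nuP_le_mul q s hp hq
  have hν0 : (0 : ℝ) ≤ nuP q s p := Nat.cast_nonneg _
  have h1 : (nuP q s p : ℝ) / p ≤ 1 / 8 := by
    rw [div_le_div_iff₀ hp0 (by norm_num)]
    nlinarith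
  have h1' : 0 ≤ (nuP q s p : ℝ) / p := by positivity
  have h2 : 1 / (p : ℝ) ≤ 1 / 2 := one_div_le_one_div_of_le two_pos hp2
  have h3 : (7 : ℝ) / 8 ≤ (1 - 1 / (p : ℝ)) ^ (K + 1) := by
    have h4 := one_add_mul_le_pow (a := -(1 / (p : ℝ))) (by linarith) (K + 1)
    have h5 : ((K : ℝ) + 1) * (1 / p) ≤ 1 / 8 := by
      rw [mul_one_div, div_le_div_iff₀ hp0 (by norm_num)]
      linarith
    have h7 : (1 + -(1 / (p : ℝ))) ^ (K + 1) = (1 - 1 / (p : ℝ)) ^ (K + 1) := by ring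
    rw [h7] at h4
    push_cast at h4
    linarith
  have h4 : 0 < (1 - 1 / (p : ℝ)) ^ (K + 1) := by linarith
  have h5 : (1 - 1 / (p : ℝ)) ^ (K + 1) ≤ 1 := by
    refine pow_le_one₀ (by linarith) ?_
    have : 0 < 1 / (p : ℝ) := by positivity
    linarith
  unfold locP
  constructor
  · rw [le_div_iff₀ h4]
    linarith
  · rw [div_le_iff₀ h4]
    linarith

theorem log_one_add_le {y : ℝ} (hy : |y| ≤ 1 / 2) : |Real.log (1 + y) - y| ≤ 2 * y ^ 2 := by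
  obtain ⟨h1, h2⟩ := abs_le.1 hy
  have h0 : 0 < 1 + y := by linarith
  have h3 := Real.log_le_sub_one_of_pos h0
  have h4 := Real.one_sub_inv_le_log_of_pos h0
  have h5 : 1 - (1 + y)⁻¹ = y - y ^ 2 * (1 + y)⁻¹ := by
    field_simp
    ring
  have h6 : (1 + y)⁻¹ ≤ 2 := by
    rw [inv_le_comm₀ h0 two_pos]
    linarith
  have h7 : y ^ 2 * (1 + y)⁻¹ ≤ y ^ 2 * 2 := mul_le_mul_of_nonneg_left h6 (sq_nonneg y)
  rw [abs_le]
  constructor
  · linarith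
  · nlinarith [sq_nonneg y]

theorem locP_nonneg {K : ℕ} (q : Fin K → Polynomial ℤ) (s : Fin K → ℕ) {p : ℕ} (hp : p.Prime) :
    0 ≤ locP q s p := by
  have hp0 : (0 : ℝ) < p := by exact_mod_cast hp.pos
  have hp1 : (1 : ℝ) ≤ p := by exact_mod_cast hp.one_lt.le
  have h1 : (nuP q s p : ℝ) / p ≤ 1 := by
    rw [div_le_one hp0]
    exact_mod_cast nuP_le q s p
  have h2 : 1 / (p : ℝ) ≤ 1 := by
    rw [div_le_one hp0]
    exact hp1
  unfold locP
  exact div_nonneg (by linarith) (pow_nonneg (by linarith) _)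

theorem singPP_nonneg {K : ℕ} (q : Fin K → Polynomial ℤ) (s : Fin K → ℕ) (w : ℕ) :
    0 ≤ singPP q s w := by
  unfold singPP
  exact prod_nonneg fun p hp => locP_nonneg q s (mem_filter.1 hp).2

theorem singPP_split {K : ℕ} (q : Fin K → Polynomial ℤ) (s : Fin K → ℕ) {z w : ℕ} (h : z ≤ w) :
    singPP q s w = singPP q s z * ∏ p ∈ (Ioc z w).filter Nat.Prime, locP q s p := by
  classical
  unfold singPP
  rw [← prod_union]
  · refine prod_congr ?_ fun _ _ => rfl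
    ext p
    simp only [mem_union, mem_filter, mem_Icc, mem_Ioc]
    constructor
    · rintro ⟨⟨h1, h2⟩, h3⟩
      rcases le_or_gt p z with h4 | h4
      · exact Or.inl ⟨⟨h1, h4⟩, h3⟩
      · exact Or.inr ⟨⟨h4, h2⟩, h3⟩
    · rintro (⟨⟨h1, h2⟩, h3⟩ | ⟨⟨h1, h2⟩, h3⟩)
      · exact ⟨⟨h1, h2.trans h⟩, h3⟩
      · exact ⟨⟨by omega, h2⟩, h3⟩
  · rw [disjoint_left]
    intro p hp hp'
    rw [mem_filter, mem_Icc] at hp
    rw [mem_filter, mem_Ioc] at hp'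
    omega

theorem good_case {d K : ℕ} (q : Fin K → Polynomial ℤ) (s : Fin K → ℕ) {z w : ℕ} {δ : ℝ}
    (hδ : δ ≤ 1 / 8) (hzw : z ≤ w) (hd : 1 ≤ d) (hK : 8 * d * (K + 1) ≤ z)
    (hq : ∀ i, 1 ≤ (q i).natDegree ∧ (q i).natDegree ≤ d ∧ (q i).leadingCoeff.natAbs ≤ z)
    (h1 : |∑ p ∈ (Ioc z w).filter Nat.Prime, (locP q s p - 1)| ≤ δ)
    (h2 : ∑ p ∈ (Ioc z w).filter Nat.Prime, (locP q s p - 1) ^ 2 ≤ δ) :
    |singPP q s w - singPP q s z| ≤ 8 * δ * singPP q s z := by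
  have hz0 := singPP_nonneg q s z
  obtain ⟨P, hP⟩ : ∃ P : Finset ℕ, P = (Ioc z w).filter Nat.Prime := ⟨_, rfl⟩
  rw [← hP] at h1 h2
  have hloc : ∀ p ∈ P, 0 < locP q s p ∧ |locP q s p - 1| ≤ 1 / 2 := by
    intro p hp
    rw [hP, mem_filter, mem_Ioc] at hp
    obtain ⟨g1, g2⟩ := locP_bds (d := d) q s hp.2 hd
      (fun i => ⟨(hq i).1, (hq i).2.1, not_dvd_lead (hq i).1 (hq i).2.2 hp.1.1⟩) (by omega)
    refine ⟨by linarith, ?_⟩
    rw [abs_le]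
    constructor <;> linarith
  rw [singPP_split q s hzw, ← hP]
  obtain ⟨t, ht⟩ : ∃ t : ℝ, t = ∑ p ∈ P, Real.log (locP q s p) := ⟨_, rfl⟩
  have hexp : ∏ p ∈ P, locP q s p = Real.exp t := by
    rw [ht, Real.exp_sum]
    exact prod_congr rfl fun p hp => (Real.exp_log (hloc p hp).1).symm
  have ht2 : t = ∑ p ∈ P, (Real.log (1 + (locP q s p - 1)) - (locP q s p - 1)) +
      ∑ p ∈ P, (locP q s p - 1) := by
    rw [ht, ← sum_add_distrib]
    refine sum_congr rfl fun p _ => ?_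
    rw [sub_add_cancel]
    congr 1
    ring
  have ht3 : |∑ p ∈ P, (Real.log (1 + (locP q s p - 1)) - (locP q s p - 1))| ≤ 2 * δ := by
    refine (abs_sum_le_sum_abs _ _).trans ?_
    refine (sum_le_sum fun p hp => log_one_add_le (hloc p hp).2).trans ?_
    rw [← mul_sum]
    linarith
  have ht4 : |t| ≤ 3 * δ := by
    rw [ht2]
    have a2 := abs_add_le (∑ p ∈ P, (Real.log (1 + (locP q s p - 1)) - (locP q s p - 1)))
      (∑ p ∈ P, (locP q s p - 1))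
    linarith
  have ht5 : |Real.exp t - 1| ≤ 2 * |t| := Real.abs_exp_sub_one_le (by linarith)
  have h6 : singPP q s z * (∏ p ∈ P, locP q s p) - singPP q s z = singPP q s z * (Real.exp t - 1) := by
    rw [hexp]
    ring
  rw [h6, abs_mul, abs_of_nonneg hz0, mul_comm]
  refine mul_le_mul_of_nonneg_right ?_ hz0
  have := abs_nonneg t
  linarith

theorem tail_gen {C₁ : ℝ} (hC : 0 < C₁) {δ : ℝ} (hδ0 : 0 < δ) (hδ : δ ≤ 1 / 8)
    {W : ℕ} [NeZero W] (d z w X K : ℕ) (H : Fin K → ℕ) (q : Fin K → Polynomial ℤ)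
    (hV : 16 * (K + 1) * (w : ℝ) ^ 4 * W ≤ X →
      ∀ b : Fin K → ZMod (W),
      ∑ s ∈ SbQ H b, (∑ p ∈ (Ioc z w).filter Nat.Prime, (locP q s p - 1)) ^ 2 ≤ (C₁ / Real.log z + 16 * (K + 1) * (w : ℝ) ^ 4 * W / X) * (SbQ H b).card ∧
      ∑ s ∈ SbQ H b, ∑ p ∈ (Ioc z w).filter Nat.Prime, (locP q s p - 1) ^ 2 ≤ (C₁ / Real.log z + 16 * (K + 1) * (w : ℝ) ^ 4 * W / X) * (SbQ H b).card)
    (hX3 : 2 ^ 20 ≤ X) (hz : 2 ≤ z) (hd : 1 ≤ d)
    (hK : 8 * d * (K + 1) ≤ z)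
    (hq : ∀ i, 1 ≤ (q i).natDegree ∧ (q i).natDegree ≤ d ∧ (q i).leadingCoeff.natAbs ≤ z)
    (hzX : (z : ℝ) ≤ Real.log X) (hW : (W : ℝ) ^ 20 ≤ X) (hzw : z ≤ w) (hw : (w : ℝ) ^ 20 ≤ X)
    (b : Fin K → ZMod (W)) :
    (((SbQ H b).filter fun s => ¬ (|singPP q s w - singPP q s z| ≤ 8 * δ * singPP q s z)).card : ℝ) ≤
      ((C₁ + 1) * (1 / δ ^ 2 + 1 / δ)) / Real.log z * (SbQ H b).card := by
  have hX0 : (0 : ℝ) < X := by exact_mod_cast (show 0 < X by omega)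
  obtain ⟨R, hR⟩ : ∃ R : ℝ, R = (X : ℝ) ^ (1 / 20 : ℝ) := ⟨_, rfl⟩
  have hR0 : 0 < R := by
    rw [hR]
    exact Real.rpow_pos_of_pos hX0 _
  have hR20 : R ^ 20 = X := by
    rw [hR, ← Real.rpow_natCast, ← Real.rpow_mul hX0.le]
    norm_num
  have hle : ∀ x : ℝ, x ^ 20 ≤ X → x ≤ R := by
    intro x hx
    refine le_of_pow_le_pow_left₀ (n := 20) (by norm_num) hR0.le ?_
    rw [hR20]
    exact hx
  have hWR := hle _ hW
  have hwR := hle _ hw
  have hR2 : 2 ≤ R := hle 2 (by exact_mod_cast hX3)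
  have hlogX : Real.log X ≤ 20 * R := by
    rw [← hR20, Real.log_pow]
    have := Real.log_le_self hR0.le
    push_cast
    linarith
  have hz2 : (2 : ℝ) ≤ z := by exact_mod_cast hz
  have hlogz : 0 < Real.log z := Real.log_pos (by linarith)
  have hlogzR : Real.log z ≤ 20 * R := by
    have := Real.log_le_self (show (0 : ℝ) ≤ z by linarith)
    linarith
  have hKr : (0 : ℝ) ≤ K := Nat.cast_nonneg _
  have hd1 : (1 : ℝ) ≤ d := by exact_mod_cast hd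
  have hKR : 16 * ((K : ℝ) + 1) ≤ 40 * R := by
    have h1 : 8 * (d : ℝ) * ((K : ℝ) + 1) ≤ z := by exact_mod_cast hK
    nlinarith
  have hW0 : (0 : ℝ) < W := by exact_mod_cast Nat.pos_of_ne_zero (NeZero.ne W)
  have hw0 : (0 : ℝ) ≤ w := Nat.cast_nonneg _
  have hE : 16 * (K + 1) * (w : ℝ) ^ 4 * W ≤ 40 * R ^ 6 := by
    calc 16 * ((K : ℝ) + 1) * (w : ℝ) ^ 4 * W ≤ (40 * R) * R ^ 4 * R := by gcongr
      _ = 40 * R ^ 6 := by ring
  have hR12 : 4096 ≤ R ^ 12 := by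
    calc (4096 : ℝ) = 2 ^ 12 := by norm_num
      _ ≤ R ^ 12 := pow_le_pow_left₀ (by norm_num) hR2 12
  have hEX : 16 * (K + 1) * (w : ℝ) ^ 4 * W ≤ X := by
    refine hE.trans ?_
    rw [← hR20]
    have h1 : R ^ 20 = R ^ 6 * (R ^ 12 * R ^ 2) := by ring
    have h2 : 1 ≤ R ^ 2 := one_le_pow₀ (by linarith)
    have h3 : 40 ≤ R ^ 12 * R ^ 2 := by nlinarith
    have h4 : 0 ≤ R ^ 6 := by positivity
    rw [h1]
    nlinarith
  have hEL : 16 * (K + 1) * (w : ℝ) ^ 4 * W / X ≤ 1 / Real.log z := by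
    calc 16 * (K + 1) * (w : ℝ) ^ 4 * W / X ≤ 40 * R ^ 6 / X := by gcongr
      _ ≤ 1 / (20 * R) := by
        rw [div_le_div_iff₀ hX0 (by positivity), ← hR20]
        have h1 : R ^ 20 = R ^ 7 * (R ^ 12 * R) := by ring
        have h2 : 40 * R ^ 6 * (20 * R) = R ^ 7 * 800 := by ring
        have h3 : 800 ≤ R ^ 12 * R := by nlinarith
        rw [one_mul, h1, h2]
        exact mul_le_mul_of_nonneg_left h3 (by positivity)
      _ ≤ 1 / Real.log z := one_div_le_one_div_of_le hlogz hlogzR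
  obtain ⟨v1, v2⟩ := hV hEX b
  obtain ⟨N, hN⟩ : ∃ N : ℝ, N = ((SbQ H b).card : ℝ) := ⟨_, rfl⟩
  rw [← hN] at v1 v2 ⊢
  have hN0 : 0 ≤ N := by rw [hN]; exact Nat.cast_nonneg _
  have hVE : (C₁ / Real.log z + 16 * (K + 1) * (w : ℝ) ^ 4 * W / X) * N ≤
      (C₁ + 1) / Real.log z * N := by
    refine mul_le_mul_of_nonneg_right ?_ hN0
    rw [add_div]
    linarith
  classical
  obtain ⟨B2, hB2⟩ : ∃ B2 : Finset (Fin K → ℕ), B2 = (SbQ H b).filter fun s => δ < |∑ p ∈ (Ioc z w).filter Nat.Prime, (locP q s p - 1)| := ⟨_, rfl⟩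
  obtain ⟨B3, hB3⟩ : ∃ B3 : Finset (Fin K → ℕ), B3 = (SbQ H b).filter fun s => δ < ∑ p ∈ (Ioc z w).filter Nat.Prime, (locP q s p - 1) ^ 2 := ⟨_, rfl⟩
  have hsub : (SbQ H b).filter (fun s => ¬ (|singPP q s w - singPP q s z| ≤ 8 * δ * singPP q s z)) ⊆
      B2 ∪ B3 := by
    intro s hs
    rw [mem_filter] at hs
    by_contra hcon
    rw [mem_union, not_or, hB2, hB3, mem_filter, mem_filter] at hcon
    obtain ⟨c2, c3⟩ := hcon
    have c2' : |∑ p ∈ (Ioc z w).filter Nat.Prime, (locP q s p - 1)| ≤ δ := by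
      by_contra h
      exact c2 ⟨hs.1, not_le.1 h⟩
    have c3' : ∑ p ∈ (Ioc z w).filter Nat.Prime, (locP q s p - 1) ^ 2 ≤ δ := by
      by_contra h
      exact c3 ⟨hs.1, not_le.1 h⟩
    exact hs.2 (good_case q s hδ hzw hd hK hq c2' c3')
  have hb2 : (B2.card : ℝ) ≤ (C₁ + 1) / δ ^ 2 / Real.log z * N := by
    have h1 : (B2.card : ℝ) * δ ^ 2 ≤
        ∑ s ∈ SbQ H b, (∑ p ∈ (Ioc z w).filter Nat.Prime, (locP q s p - 1)) ^ 2 := by
      calc (B2.card : ℝ) * δ ^ 2 = ∑ _s ∈ B2, δ ^ 2 := by rw [sum_const, nsmul_eq_mul]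
        _ ≤ ∑ s ∈ B2, (∑ p ∈ (Ioc z w).filter Nat.Prime, (locP q s p - 1)) ^ 2 := by
          refine sum_le_sum fun s hs => ?_
          rw [hB2, mem_filter] at hs
          rw [← sq_abs (∑ p ∈ (Ioc z w).filter Nat.Prime, (locP q s p - 1))]
          exact pow_le_pow_left₀ hδ0.le hs.2.le 2
        _ ≤ _ := by
          rw [hB2]
          exact sum_le_sum_of_subset_of_nonneg (filter_subset _ _) fun _ _ _ => sq_nonneg _
    have h2 := h1.trans (v1.trans hVE)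
    rw [← le_div_iff₀ (by positivity)] at h2
    refine h2.trans (le_of_eq ?_)
    field_simp
  have hb3 : (B3.card : ℝ) ≤ (C₁ + 1) / δ / Real.log z * N := by
    have h1 : (B3.card : ℝ) * δ ≤
        ∑ s ∈ SbQ H b, ∑ p ∈ (Ioc z w).filter Nat.Prime, (locP q s p - 1) ^ 2 := by
      calc (B3.card : ℝ) * δ = ∑ _s ∈ B3, δ := by rw [sum_const, nsmul_eq_mul]
        _ ≤ ∑ s ∈ B3, ∑ p ∈ (Ioc z w).filter Nat.Prime, (locP q s p - 1) ^ 2 := by
          refine sum_le_sum fun s hs => ?_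
          rw [hB3, mem_filter] at hs
          exact hs.2.le
        _ ≤ _ := by
          rw [hB3]
          exact sum_le_sum_of_subset_of_nonneg (filter_subset _ _) fun _ _ _ =>
            sum_nonneg fun _ _ => sq_nonneg _
    have h2 := h1.trans (v2.trans hVE)
    rw [← le_div_iff₀ hδ0] at h2
    refine h2.trans (le_of_eq ?_)
    field_simp
  have hc : (((SbQ H b).filter fun s => ¬ (|singPP q s w - singPP q s z| ≤ 8 * δ * singPP q s z)).card : ℝ) ≤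
      B2.card + B3.card := by
    have h1 := card_le_card hsub
    have h3 := card_union_le B2 B3
    exact_mod_cast (h1.trans h3)
  calc _ ≤ (B2.card : ℝ) + B3.card := hc
    _ ≤ (C₁ + 1) / δ ^ 2 / Real.log z * N +
        (C₁ + 1) / δ / Real.log z * N := by linarith
    _ = _ := by
      field_simp

/-- **PQ-TAILP** -/
theorem t_TAILP : S_TAILP := by
  classical
  intro hVAR ε hε
  obtain ⟨C₁, hC₁, hV⟩ := hVAR
  obtain ⟨δ, hδ⟩ : ∃ δ : ℝ, δ = min ε 1 / 8 := ⟨_, rfl⟩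
  have hδ0 : 0 < δ := by
    rw [hδ]
    positivity
  have hδ1 : δ ≤ 1 / 8 := by
    rw [hδ]
    have := min_le_right ε 1
    linarith
  have hδε : 8 * δ ≤ ε := by
    rw [hδ]
    have := min_le_left ε 1
    linarith
  refine ⟨(C₁ + 1) * (1 / δ ^ 2 + 1 / δ), 2 ^ 20, 2, by positivity, ?_⟩
  intro d z w Y X K H q hX hz hd hK hS hzX hW hzw hw b
  have h2 := tail_gen hC₁ hδ0 hδ1 (W := PW z) d z w X K H q (fun hY b' => hV d z w Y X K H q hz hK hS hY b')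
    hX hz hd hK (fun i => ⟨(hS.deg i).1, (hS.deg i).2, hS.lead i⟩) hzX hW hzw hw b
  refine le_trans ?_ h2
  have h3 : (SbQ H b).filter (fun s => ¬ (|singPP q s w - singPP q s z| ≤ ε * singPP q s z)) ⊆
      (SbQ H b).filter (fun s => ¬ (|singPP q s w - singPP q s z| ≤ 8 * δ * singPP q s z)) := by
    intro s hs
    rw [mem_filter] at hs ⊢
    refine ⟨hs.1, fun h => hs.2 (h.trans ?_)⟩
    exact mul_le_mul_of_nonneg_right hδε (singPP_nonneg q s z)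
  exact_mod_cast card_le_card h3

end Pool.Agent.Q31.PQ

/-- **The job TAILP.** -/
theorem Pool.Agent.Q145.PQ.t_TAILP : Pool.Agent.Q145.PQ.S_TAILP := Pool.Agent.Q31.PQ.t_TAILP
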